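import Pool.Agent.H34.T2e.Frz
import Pool.Agent.H56.T2e.Fib

/-!
# Field rigidity centred at a vertex: the final form of the module
-/

open Pool.Agent.H2.T2

namespace Pool.Agent.H34.T2e

/-- Field rigidity, centred at a vertex, from the affine structure of the field at this vertex. -/
theorem frz_final {α β : ℂ} (hNR : NR α β) (hAG : AG α β) (hPa : Prune α) (hPb : Prune β)
    (hT : RemezT) (hCU : CU) : FRz α β :=
  frz_of hNR hAG hPa hPb (Pool.Agent.H56.T2e.fib_of hNR.1 hT) hT hCU

end Pool.Agent.H34.T2e
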