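import Pool.Agent.H34.T2e.Step

/-!
# Two hinge steps
-/

open MeasureTheory Set
open scoped ComplexConjugate Real
open Pool.Agent.H2.T2

namespace Pool.Agent.H34.T2e

/-- The increment of the virial at fixed angle predicted by the slopes `M`, `M'` on the displacement
`D`. -/
noncomputable def Gp (α β : ℂ) (M : ℝ) (M' : ℂ) (φ : ℝ) (D : ℂ) : ℝ :=
  -M * (conj (ec φ) * D * conj (α + β)).re
    + 3 / (α * conj β).im * (conj (α * β) * M' * ec (-2 * φ)).im
      * (conj (ec φ) * D * conj (β - α)).re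

theorem Lp_comm (α β : ℂ) (φ m : ℝ) (m' : ℂ) : Lp β α φ m m' = Lp α β φ m m' := by
  unfold Lp
  have h1 : (β * conj α).re = (α * conj β).re := by
    rw [Complex.mul_re, Complex.mul_re]
    simp only [Complex.conj_re, Complex.conj_im]
    ring
  rw [h1, mul_comm β α]

theorem Lp_add (α β : ℂ) (φ m n : ℝ) (m' n' : ℂ) :
    Lp α β φ (m + n) (m' + n') = Lp α β φ m m' + Lp α β φ n n' := by
  unfold Lp
  have : conj (α * β) * (m' + n') * ec (-2 * φ)
      = conj (α * β) * m' * ec (-2 * φ) + conj (α * β) * n' * ec (-2 * φ) := by ring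
  rw [this, Complex.add_re]
  ring

theorem Gp_add (α β : ℂ) (M : ℝ) (M' : ℂ) (φ : ℝ) (D E : ℂ) :
    Gp α β M M' φ (D + E) = Gp α β M M' φ D + Gp α β M M' φ E := by
  unfold Gp
  have h1 : conj (ec φ) * (D + E) * conj (α + β)
      = conj (ec φ) * D * conj (α + β) + conj (ec φ) * E * conj (α + β) := by ring
  have h2 : conj (ec φ) * (D + E) * conj (β - α)
      = conj (ec φ) * D * conj (β - α) + conj (ec φ) * E * conj (β - α) := by ring
  rw [h1, h2, Complex.add_re, Complex.add_re]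
  ring

theorem Gp_abs_le (α β : ℂ) (M : ℝ) (M' : ℂ) (φ : ℝ) (D : ℂ) :
    |Gp α β M M' φ D| ≤ (|M| * ‖α + β‖ + 3 / |(α * conj β).im| * (‖α‖ * ‖β‖ * ‖M'‖) * ‖β - α‖)
      * ‖D‖ := by
  unfold Gp
  refine (abs_add_le _ _).trans ?_
  rw [abs_mul, abs_mul, abs_mul, abs_neg, abs_div, abs_of_nonneg (by norm_num : (0 : ℝ) ≤ 3)]
  have h1 : |(conj (ec φ) * D * conj (α + β)).re| ≤ ‖D‖ * ‖α + β‖ := by
    refine (abs_re_le' _).trans ?_
    rw [norm_mul, norm_mul, norm_conj', norm_conj', norm_ec, one_mul]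
  have h2 : |(conj (ec φ) * D * conj (β - α)).re| ≤ ‖D‖ * ‖β - α‖ := by
    refine (abs_re_le' _).trans ?_
    rw [norm_mul, norm_mul, norm_conj', norm_conj', norm_ec, one_mul]
  have h3 : |(conj (α * β) * M' * ec (-2 * φ)).im| ≤ ‖α‖ * ‖β‖ * ‖M'‖ := by
    refine (Complex.abs_im_le_norm _).trans ?_
    rw [norm_mul, norm_mul, norm_conj', norm_ec, norm_mul, mul_one]
  calc |M| * |(conj (ec φ) * D * conj (α + β)).re|
        + 3 / |(α * conj β).im| * |(conj (α * β) * M' * ec (-2 * φ)).im|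
          * |(conj (ec φ) * D * conj (β - α)).re|
      ≤ |M| * (‖D‖ * ‖α + β‖) + 3 / |(α * conj β).im| * (‖α‖ * ‖β‖ * ‖M'‖)
          * (‖D‖ * ‖β - α‖) := by gcongr
    _ = _ := by ring

theorem re_neg_I_mul (z : ℂ) (t : ℝ) : (-Complex.I * z * t).re = z.im * t := by
  simp

theorem re_I_mul (z : ℂ) (t : ℝ) : (Complex.I * z * t).re = -z.im * t := by
  simp

/-- The main terms cancel. -/
theorem main_cancel (α β : ℂ) (hJ : (α * conj β).im ≠ 0) (M : ℝ) (M' : ℂ) (φ a b : ℝ) :
    M * (conj (ec φ) * conj β * (-Complex.I * α * ec φ * a)).re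
      + M * (conj (ec φ) * conj α * (-Complex.I * β * ec φ * b)).re
      + 3 * (conj (ec φ) * conj β * M' * conj (-Complex.I * α * ec φ * a)).re
      + 3 * (conj (ec φ) * conj α * M' * conj (-Complex.I * β * ec φ * b)).re
      + Gp α β M M' φ (-Complex.I * α * ec φ * a + -Complex.I * β * ec φ * b) = 0 := by
  have hcc : conj (ec φ) * ec φ = 1 := conj_ec_mul φ
  have h1 : conj (ec φ) * conj β * (-Complex.I * α * ec φ * a) = -Complex.I * (α * conj β) * a := by
    linear_combination (-Complex.I * (α * conj β) * a) * hcc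
  have h2 : conj (ec φ) * conj α * (-Complex.I * β * ec φ * b) = -Complex.I * (β * conj α) * b := by
    linear_combination (-Complex.I * (β * conj α) * b) * hcc
  have h3 : conj (ec φ) * conj β * M' * conj (-Complex.I * α * ec φ * a)
      = Complex.I * (conj (α * β) * M' * ec (-2 * φ)) * a := by
    rw [ec_neg_two]
    simp only [map_mul, map_neg, Complex.conj_I, Complex.conj_ofReal]
    ring
  have h4 : conj (ec φ) * conj α * M' * conj (-Complex.I * β * ec φ * b)
      = Complex.I * (conj (α * β) * M' * ec (-2 * φ)) * b := by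
    rw [ec_neg_two]
    simp only [map_mul, map_neg, Complex.conj_I, Complex.conj_ofReal]
    ring
  have h5 : conj (ec φ) * (-Complex.I * α * ec φ * a + -Complex.I * β * ec φ * b) * conj (α + β)
      = -Complex.I * (α * conj (α + β)) * a + -Complex.I * (β * conj (α + β)) * b := by
    linear_combination (-Complex.I * (α * conj (α + β)) * a
      + -Complex.I * (β * conj (α + β)) * b) * hcc
  have h6 : conj (ec φ) * (-Complex.I * α * ec φ * a + -Complex.I * β * ec φ * b) * conj (β - α)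
      = -Complex.I * (α * conj (β - α)) * a + -Complex.I * (β * conj (β - α)) * b := by
    linear_combination (-Complex.I * (α * conj (β - α)) * a
      + -Complex.I * (β * conj (β - α)) * b) * hcc
  have i1 : (β * conj α).im = -(α * conj β).im := by
    rw [Complex.mul_im, Complex.mul_im]
    simp only [Complex.conj_re, Complex.conj_im]
    ring
  have i2 : (α * conj (α + β)).im = (α * conj β).im := by
    rw [Complex.mul_im, Complex.mul_im]
    simp only [Complex.conj_re, Complex.conj_im, Complex.add_re, Complex.add_im]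
    ring
  have i3 : (β * conj (α + β)).im = -(α * conj β).im := by
    rw [Complex.mul_im, Complex.mul_im]
    simp only [Complex.conj_re, Complex.conj_im, Complex.add_re, Complex.add_im]
    ring
  have i4 : (α * conj (β - α)).im = (α * conj β).im := by
    rw [Complex.mul_im, Complex.mul_im]
    simp only [Complex.conj_re, Complex.conj_im, Complex.sub_re, Complex.sub_im]
    ring
  have i5 : (β * conj (β - α)).im = (α * conj β).im := by
    rw [Complex.mul_im, Complex.mul_im]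
    simp only [Complex.conj_re, Complex.conj_im, Complex.sub_re, Complex.sub_im]
    ring
  unfold Gp
  rw [h1, h2, h3, h4, h5, h6, Complex.add_re, Complex.add_re]
  simp only [re_neg_I_mul, re_I_mul, i1, i2, i3, i4, i5]
  field_simp
  ring

theorem ec_taylor (s t : ℝ) (h : |t - s| ≤ 1) : ‖ec s - ec t + Complex.I * ec s * ((t - s : ℝ) : ℂ)‖
    ≤ (t - s) ^ 2 := by
  have h1 : ec t = ec s * Complex.exp (((t - s : ℝ) : ℂ) * Complex.I) := by
    unfold ec
    rw [← Complex.exp_add]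
    congr 1
    push_cast
    ring
  have h2 : ec s - ec t + Complex.I * ec s * ((t - s : ℝ) : ℂ)
      = -(ec s * (Complex.exp (((t - s : ℝ) : ℂ) * Complex.I) - 1
        - ((t - s : ℝ) : ℂ) * Complex.I)) := by
    rw [h1]
    ring
  rw [h2, norm_neg, norm_mul, norm_ec, one_mul]
  have h3 : ‖((t - s : ℝ) : ℂ) * Complex.I‖ ≤ 1 := by
    rw [norm_mul, Complex.norm_I, mul_one, Complex.norm_real]
    exact h
  refine (Complex.norm_exp_sub_one_sub_id_le h3).trans ?_
  rw [norm_mul, Complex.norm_I, mul_one, Complex.norm_real, Real.norm_eq_abs, sq_abs]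

/-- The composition of a hinge about `a` and a hinge about `b`. -/
theorem comb (α β : ℂ) (hJ : (α * conj β).im ≠ 0) : ∃ C : ℝ, 0 ≤ C ∧
    ∀ (e h K φ φ' φ'' : ℝ) (z z' z'' : ℂ) (M m₀ m₁ m₂ : ℝ) (M' m₀' m₁' m₂' : ℂ),
    0 < e → e ≤ 1 / 2 → 0 < h → h ≤ 1 → |φ' - φ| ≤ h → |φ'' - φ'| ≤ h →
    z' = z + α * (ec φ - ec φ') → z'' = z' + β * (ec φ' - ec φ'') →
    |M| ≤ 1 / e → ‖M'‖ ≤ 1 / e → ‖m₁' - M'‖ ≤ h / e → ‖m₂' - M'‖ ≤ h / e →
    |Lp α β φ (m₁ - m₀) (m₁' - m₀') + M * (conj (ec φ) * conj β * (z' - z)).re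
      + 3 * (conj (ec φ) * conj β * M' * conj (z' - z)).re| ≤ K →
    |Lp β α φ' (m₂ - m₁) (m₂' - m₁') + M * (conj (ec φ') * conj α * (z'' - z')).re
      + 3 * (conj (ec φ') * conj α * M' * conj (z'' - z')).re| ≤ K →
    |Lp α β φ (m₂ - m₀) (m₂' - m₀') - Gp α β M M' φ (z'' - z)| ≤ 2 * K + C * (h ^ 2 / e) := by
  set A : ℝ := 1 + ‖α‖ + ‖β‖ with hA
  have hα0 := norm_nonneg α
  have hβ0 := norm_nonneg β
  have hA1 : 1 ≤ A := by linarith
  have hαA : ‖α‖ ≤ A := by linarith
  have hβA : ‖β‖ ≤ A := by linarith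
  set G₀ : ℝ := ‖α + β‖ + 3 / |(α * conj β).im| * (‖α‖ * ‖β‖) * ‖β - α‖ with hG₀
  have hG₀0 : 0 ≤ G₀ := by positivity
  refine ⟨30 * A ^ 2 + 3 * A * G₀, by positivity, ?_⟩
  intro e h K φ φ' φ'' z z' z'' M m₀ m₁ m₂ M' m₀' m₁' m₂' he he2 hh hh1 hφ hφ' hz' hz'' hM hM'
    hm1 hm2 hT1 hT2
  set θ : ℂ := ec φ with hθ
  set θ' : ℂ := ec φ' with hθ'
  set θ'' : ℂ := ec φ'' with hθ''
  set Da : ℂ := z' - z with hDa
  set Db : ℂ := z'' - z' with hDb
  have hDa' : Da = α * (θ - θ') := by rw [hDa, hz']; ring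
  have hDb' : Db = β * (θ' - θ'') := by rw [hDb, hz'']; ring
  have hDD : z'' - z = Da + Db := by rw [hDa, hDb]; ring
  have hθ1 : ‖θ‖ = 1 := norm_ec φ
  have hdθ : ‖θ' - θ‖ ≤ h := (ec_diff_le φ' φ).trans hφ
  have hdθ2 : ‖θ' - θ''‖ ≤ h := by
    refine (ec_diff_le φ' φ'').trans ?_
    rw [abs_sub_comm]
    exact hφ'
  have hDbn : ‖Db‖ ≤ A * h := by
    rw [hDb', norm_mul]
    gcongr
  have hE : (0 : ℝ) ≤ 1 / e := by positivity
  have hq0 : 0 ≤ h ^ 2 / e := by positivity
  have hq1 : 1 / e * h ^ 2 = h ^ 2 / e := by ring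
  set a : ℝ := φ' - φ with ha
  set b : ℝ := φ'' - φ' with hb
  set ρa : ℂ := Da - (-Complex.I * α * θ * a) with hρa
  set ρb : ℂ := Db - (-Complex.I * β * θ * b) with hρb
  have hρan : ‖ρa‖ ≤ A * h ^ 2 := by
    have e1 : ρa = α * (θ - θ' + Complex.I * θ * ((φ' - φ : ℝ) : ℂ)) := by
      rw [hρa, hDa', ha]; ring
    rw [e1, norm_mul]
    have e2 := ec_taylor φ φ' (hφ.trans hh1)
    have e3 : (φ' - φ) ^ 2 ≤ h ^ 2 := by
      rw [← sq_abs]
      gcongr
    have e4 := e2.trans e3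
    gcongr
  have hρbn : ‖ρb‖ ≤ 2 * (A * h ^ 2) := by
    have e1 : ρb = β * (θ' - θ'' + Complex.I * θ' * ((φ'' - φ' : ℝ) : ℂ))
        - Complex.I * β * (θ' - θ) * b := by
      rw [hρb, hDb', hb]; ring
    rw [e1]
    refine (norm_sub_le _ _).trans ?_
    have e2 := ec_taylor φ' φ'' (hφ'.trans hh1)
    have e3 : (φ'' - φ') ^ 2 ≤ h ^ 2 := by
      rw [← sq_abs]
      gcongr
    have e4 : ‖β * (θ' - θ'' + Complex.I * θ' * ((φ'' - φ' : ℝ) : ℂ))‖ ≤ A * h ^ 2 := by
      rw [norm_mul]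
      gcongr
      exact e2.trans e3
    have e5 : ‖Complex.I * β * (θ' - θ) * b‖ ≤ A * h ^ 2 := by
      rw [norm_mul, norm_mul, norm_mul, Complex.norm_I, one_mul, Complex.norm_real,
        Real.norm_eq_abs]
      calc ‖β‖ * ‖θ' - θ‖ * |b| ≤ A * h * h := by gcongr
        _ = A * h ^ 2 := by ring
    linarith
  set E1r : ℝ := (conj (α * β) * (m₂' - m₁') * (ec (-2 * φ') - ec (-2 * φ))).re with hE1r
  set E2r : ℝ := M * ((conj θ' - conj θ) * conj α * Db).re with hE2r
  set E3r : ℝ := 3 * ((conj θ' - conj θ) * conj α * M' * conj Db).re with hE3r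
  set T1 : ℝ := Lp α β φ (m₁ - m₀) (m₁' - m₀') + M * (conj θ * conj β * Da).re
      + 3 * (conj θ * conj β * M' * conj Da).re with hT1d
  set T2 : ℝ := Lp β α φ' (m₂ - m₁) (m₂' - m₁') + M * (conj θ' * conj α * Db).re
      + 3 * (conj θ' * conj α * M' * conj Db).re with hT2d
  set U : ℝ := M * (conj θ * conj β * ρa).re + M * (conj θ * conj α * ρb).re
      + 3 * (conj θ * conj β * M' * conj ρa).re + 3 * (conj θ * conj α * M' * conj ρb).re
      + Gp α β M M' φ (ρa + ρb) with hU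
  have hbr : M * (conj θ * conj β * Da).re + M * (conj θ * conj α * Db).re
      + 3 * (conj θ * conj β * M' * conj Da).re + 3 * (conj θ * conj α * M' * conj Db).re
      + Gp α β M M' φ (Da + Db) = U := by
    have e0 := main_cancel α β hJ M M' φ a b
    have e1 : Da = -Complex.I * α * θ * a + ρa := by rw [hρa]; ring
    have e2 : Db = -Complex.I * β * θ * b + ρb := by rw [hρb]; ring
    have e3 : (conj θ * conj β * Da).re = (conj θ * conj β * (-Complex.I * α * θ * a)).re
        + (conj θ * conj β * ρa).re := by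
      rw [← Complex.add_re, e1]
      congr 1
      ring
    have e4 : (conj θ * conj α * Db).re = (conj θ * conj α * (-Complex.I * β * θ * b)).re
        + (conj θ * conj α * ρb).re := by
      rw [← Complex.add_re, e2]
      congr 1
      ring
    have e5 : (conj θ * conj β * M' * conj Da).re
        = (conj θ * conj β * M' * conj (-Complex.I * α * θ * a)).re
        + (conj θ * conj β * M' * conj ρa).re := by
      rw [← Complex.add_re, e1, map_add]
      congr 1
      ring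
    have e6 : (conj θ * conj α * M' * conj Db).re
        = (conj θ * conj α * M' * conj (-Complex.I * β * θ * b)).re
        + (conj θ * conj α * M' * conj ρb).re := by
      rw [← Complex.add_re, e2, map_add]
      congr 1
      ring
    have e7 : Gp α β M M' φ (Da + Db)
        = Gp α β M M' φ (-Complex.I * α * θ * a + -Complex.I * β * θ * b)
          + Gp α β M M' φ (ρa + ρb) := by
      rw [← Gp_add, e1, e2]
      congr 1
      ring
    rw [e3, e4, e5, e6, e7, hU]
    linarith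
  have hLL : Lp α β φ (m₂ - m₁) (m₂' - m₁') = Lp α β φ' (m₂ - m₁) (m₂' - m₁') + E1r := by
    unfold Lp
    rw [hE1r]
    have : conj (α * β) * (m₂' - m₁') * (ec (-2 * φ') - ec (-2 * φ))
        = conj (α * β) * (m₂' - m₁') * ec (-2 * φ') - conj (α * β) * (m₂' - m₁') * ec (-2 * φ) := by
      ring
    rw [this, Complex.sub_re]
    ring
  have hkey : Lp α β φ (m₂ - m₀) (m₂' - m₀') - Gp α β M M' φ (Da + Db)
      = T1 + T2 + E1r - E2r - E3r - U := by
    have e1 : Lp α β φ (m₂ - m₀) (m₂' - m₀')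
        = Lp α β φ (m₁ - m₀) (m₁' - m₀') + Lp α β φ (m₂ - m₁) (m₂' - m₁') := by
      rw [← Lp_add]
      congr 1 <;> ring
    have e2 : (conj θ' * conj α * Db).re = (conj θ * conj α * Db).re
        + ((conj θ' - conj θ) * conj α * Db).re := by
      rw [← Complex.add_re]
      congr 1
      ring
    have e3 : (conj θ' * conj α * M' * conj Db).re = (conj θ * conj α * M' * conj Db).re
        + ((conj θ' - conj θ) * conj α * M' * conj Db).re := by
      rw [← Complex.add_re]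
      congr 1
      ring
    rw [← hbr, hT1d, hT2d, hE2r, hE3r, e1, hLL, Lp_comm α β φ' (m₂ - m₁) (m₂' - m₁'), e2, e3]
    ring
  rw [hDD, hkey]
  have hθc : ‖conj θ' - conj θ‖ ≤ h := by
    rw [← map_sub, norm_conj']
    exact hdθ
  have hA0 : 0 ≤ A := by linarith
  have hA2 : A ≤ A ^ 2 := by nlinarith
  have b1 : |E1r| ≤ 4 * (A ^ 2 * (h ^ 2 / e)) := by
    rw [hE1r]
    refine (abs_re_le' _).trans ?_
    rw [norm_mul, norm_mul, norm_conj', norm_mul]
    have e1 : ‖ec (-2 * φ') - ec (-2 * φ)‖ ≤ 2 * h := by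
      refine (ec_diff_le _ _).trans ?_
      have : -2 * φ' - -2 * φ = (-2) * (φ' - φ) := by ring
      rw [this, abs_mul]
      norm_num
      exact hφ
    have e2 : ‖m₂' - m₁'‖ ≤ 2 * (h / e) := by
      have : m₂' - m₁' = (m₂' - M') - (m₁' - M') := by ring
      rw [this]
      refine (norm_sub_le _ _).trans ?_
      linarith
    calc ‖α‖ * ‖β‖ * ‖m₂' - m₁'‖ * ‖ec (-2 * φ') - ec (-2 * φ)‖
        ≤ A * A * (2 * (h / e)) * (2 * h) := by gcongr
      _ = 4 * (A ^ 2 * (h ^ 2 / e)) := by ring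
  have b2 : |E2r| ≤ A ^ 2 * (h ^ 2 / e) := by
    rw [hE2r, abs_mul]
    have : |((conj θ' - conj θ) * conj α * Db).re| ≤ h * A * (A * h) := by
      refine (abs_re_le' _).trans ?_
      rw [norm_mul, norm_mul, norm_conj']
      gcongr
    calc |M| * |((conj θ' - conj θ) * conj α * Db).re| ≤ 1 / e * (h * A * (A * h)) := by gcongr
      _ = A ^ 2 * (h ^ 2 / e) := by ring
  have b3 : |E3r| ≤ 3 * (A ^ 2 * (h ^ 2 / e)) := by
    rw [hE3r, abs_mul, abs_of_nonneg (by norm_num : (0 : ℝ) ≤ 3)]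
    have : |((conj θ' - conj θ) * conj α * M' * conj Db).re| ≤ h * A * (1 / e) * (A * h) := by
      refine (abs_re_le' _).trans ?_
      rw [norm_mul, norm_mul, norm_mul, norm_conj', norm_conj']
      gcongr
    calc 3 * |((conj θ' - conj θ) * conj α * M' * conj Db).re|
        ≤ 3 * (h * A * (1 / e) * (A * h)) := by gcongr
      _ = 3 * (A ^ 2 * (h ^ 2 / e)) := by ring
  have b4 : |U| ≤ 12 * (A ^ 2 * (h ^ 2 / e)) + 3 * A * G₀ * (h ^ 2 / e) := by
    have u1 : |M * (conj θ * conj β * ρa).re| ≤ A ^ 2 * (h ^ 2 / e) := by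
      rw [abs_mul]
      have : |(conj θ * conj β * ρa).re| ≤ A * (A * h ^ 2) := by
        refine (abs_re_le' _).trans ?_
        rw [norm_mul, norm_mul, norm_conj', norm_conj', hθ1, one_mul]
        gcongr
      calc |M| * |(conj θ * conj β * ρa).re| ≤ 1 / e * (A * (A * h ^ 2)) := by gcongr
        _ = A ^ 2 * (h ^ 2 / e) := by ring
    have u2 : |M * (conj θ * conj α * ρb).re| ≤ 2 * (A ^ 2 * (h ^ 2 / e)) := by
      rw [abs_mul]
      have : |(conj θ * conj α * ρb).re| ≤ A * (2 * (A * h ^ 2)) := by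
        refine (abs_re_le' _).trans ?_
        rw [norm_mul, norm_mul, norm_conj', norm_conj', hθ1, one_mul]
        gcongr
      calc |M| * |(conj θ * conj α * ρb).re| ≤ 1 / e * (A * (2 * (A * h ^ 2))) := by gcongr
        _ = 2 * (A ^ 2 * (h ^ 2 / e)) := by ring
    have u3 : |3 * (conj θ * conj β * M' * conj ρa).re| ≤ 3 * (A ^ 2 * (h ^ 2 / e)) := by
      rw [abs_mul, abs_of_nonneg (by norm_num : (0 : ℝ) ≤ 3)]
      have : |(conj θ * conj β * M' * conj ρa).re| ≤ A * (1 / e) * (A * h ^ 2) := by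
        refine (abs_re_le' _).trans ?_
        rw [norm_mul, norm_mul, norm_mul, norm_conj', norm_conj', norm_conj', hθ1, one_mul]
        gcongr
      calc 3 * |(conj θ * conj β * M' * conj ρa).re| ≤ 3 * (A * (1 / e) * (A * h ^ 2)) := by gcongr
        _ = 3 * (A ^ 2 * (h ^ 2 / e)) := by ring
    have u4 : |3 * (conj θ * conj α * M' * conj ρb).re| ≤ 6 * (A ^ 2 * (h ^ 2 / e)) := by
      rw [abs_mul, abs_of_nonneg (by norm_num : (0 : ℝ) ≤ 3)]
      have : |(conj θ * conj α * M' * conj ρb).re| ≤ A * (1 / e) * (2 * (A * h ^ 2)) := by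
        refine (abs_re_le' _).trans ?_
        rw [norm_mul, norm_mul, norm_mul, norm_conj', norm_conj', norm_conj', hθ1, one_mul]
        gcongr
      calc 3 * |(conj θ * conj α * M' * conj ρb).re|
          ≤ 3 * (A * (1 / e) * (2 * (A * h ^ 2))) := by gcongr
        _ = 6 * (A ^ 2 * (h ^ 2 / e)) := by ring
    have u5 : |Gp α β M M' φ (ρa + ρb)| ≤ 3 * A * G₀ * (h ^ 2 / e) := by
      refine (Gp_abs_le α β M M' φ (ρa + ρb)).trans ?_
      have e1 : ‖ρa + ρb‖ ≤ 3 * (A * h ^ 2) := by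
        refine (norm_add_le _ _).trans ?_
        linarith
      have e2 : |M| * ‖α + β‖ + 3 / |(α * conj β).im| * (‖α‖ * ‖β‖ * ‖M'‖) * ‖β - α‖
          ≤ 1 / e * G₀ := by
        have e3 : |M| * ‖α + β‖ ≤ 1 / e * ‖α + β‖ := by gcongr
        have e4 : 3 / |(α * conj β).im| * (‖α‖ * ‖β‖ * ‖M'‖) * ‖β - α‖
            ≤ 3 / |(α * conj β).im| * (‖α‖ * ‖β‖ * (1 / e)) * ‖β - α‖ := by gcongr
        have e5 : 1 / e * G₀ = 1 / e * ‖α + β‖
            + 3 / |(α * conj β).im| * (‖α‖ * ‖β‖ * (1 / e)) * ‖β - α‖ := by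
          rw [hG₀]; ring
        linarith
      calc (|M| * ‖α + β‖ + 3 / |(α * conj β).im| * (‖α‖ * ‖β‖ * ‖M'‖) * ‖β - α‖) * ‖ρa + ρb‖
          ≤ (1 / e * G₀) * (3 * (A * h ^ 2)) := by gcongr
        _ = 3 * A * G₀ * (h ^ 2 / e) := by ring
    rw [hU]
    rw [abs_le] at *
    constructor <;> linarith
  have hfin : 2 * K + (30 * A ^ 2 + 3 * A * G₀) * (h ^ 2 / e)
      = 2 * K + 30 * (A ^ 2 * (h ^ 2 / e)) + 3 * A * G₀ * (h ^ 2 / e) := by ring
  rw [hfin]
  have hpos : 0 ≤ A ^ 2 * (h ^ 2 / e) := by positivity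
  rw [abs_le] at *
  constructor <;> linarith

end Pool.Agent.H34.T2e
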