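import Pool.Agent.H34.T2e.Harm
import Pool.Agent.H84.T2e.Path

/-!
# The end of the proof: fields with affine structure on two scales do not exist
-/

open MeasureTheory Set
open scoped ComplexConjugate Real
open Pool.Agent.H2.T2

namespace Pool.Agent.H34.T2e

/-- The fibre step: the slopes `m'` at the small scale are close to the slope `M'` at the large
scale. -/
def Fib (α β : ℂ) : Prop := ∃ C : ℕ, ∀ (e h : ℝ) (z₀ : ℂ) (G : Set (ℂ × ℝ)) (m : ℂ → ℝ)
    (m' : ℂ → ℂ) (M : ℝ) (M' : ℂ),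
  0 < e → e ≤ 1 / 2 → 0 < h → h ≤ 1 → MeasurableSet G →
  (∀ x ∈ G, x.1 ∈ sq z₀ h ∧ 0 ≤ x.2 ∧ x.2 < 2 * π) → ENNReal.ofReal (e * h ^ 2) ≤ volume G →
  (∀ x ∈ G, |Lp α β x.2 (m x.1) (m' x.1) - Lp α β x.2 M M'| ≤ 2 * h / e) →
  ∃ G' : Set (ℂ × ℝ), MeasurableSet G' ∧ G' ⊆ G ∧ ENNReal.ofReal (e / 2 * h ^ 2) ≤ volume G' ∧
    ∀ x ∈ G', ‖m' x.1 - M'‖ ≤ h / e ^ C

theorem Lp_abs_le (α β : ℂ) (φ m : ℝ) (m' : ℂ) :
    |Lp α β φ m m'| ≤ |(α * conj β).re| * |m| + ‖α‖ * ‖β‖ * ‖m'‖ := by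
  unfold Lp
  refine (abs_sub _ _).trans ?_
  rw [abs_mul]
  have : |(conj (α * β) * m' * ec (-2 * φ)).re| ≤ ‖α‖ * ‖β‖ * ‖m'‖ := by
    refine (abs_re_le' _).trans ?_
    rw [norm_mul, norm_mul, norm_conj', norm_ec, norm_mul, mul_one]
  linarith

/-- Constants are absorbed by powers of `e`. -/
theorem absorb (Γ : ℝ) : ∃ k : ℕ, ∀ e : ℝ, 0 < e → e ≤ 1 / 2 → Γ * e ^ k ≤ 1 := by
  obtain ⟨k, hk⟩ := pow_unbounded_of_one_lt Γ (by norm_num : (1 : ℝ) < 2)
  refine ⟨k, fun e he he2 => ?_⟩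
  have h1 : (2 * e) ^ k ≤ 1 := pow_le_one₀ (by positivity) (by linarith)
  calc Γ * e ^ k ≤ 2 ^ k * e ^ k := by gcongr
    _ = (2 * e) ^ k := by rw [mul_pow]
    _ ≤ 1 := h1

theorem endP {α β : ℂ} (hJ : (α * conj β).im ≠ 0) (hF : Fib α β)
    (hP : Pool.Agent.H84.T2e.PathC α β) (hT : RemezT) : ∃ C : ℕ, ∀ (e h δ : ℝ) (z₀ : ℂ)
    (w f g : ℂ → ℂ) (G : Set (ℂ × ℝ)) (m : ℂ → ℝ) (m' : ℂ → ℂ) (M : ℝ) (M' u₀ : ℂ),
    0 < e → e ≤ 1 / 2 → 0 < h → h ≤ e ^ C → 0 ≤ δ → δ ≤ h ^ 2 → Sys α β e δ w f g G →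
    (∀ x ∈ G, x.1 ∈ sq z₀ h) → ENNReal.ofReal (e * h ^ 2) ≤ volume G →
    |M| ≤ 1 / e → ‖M'‖ ≤ 1 / e →
    (∀ x ∈ G, ‖w x.1 - u₀ - M * x.1 - M' * conj x.1‖ ≤ h ^ 2 / e) →
    (∀ x ∈ G, |(mo α β f g x).re - Lp α β x.2 M M'| ≤ h / e) →
    (∀ x ∈ G, |(mo α β f g x).re - Lp α β x.2 (m x.1) (m' x.1)| ≤ h ^ 2 / e) → False := by
  obtain ⟨C1, hC1⟩ := hF
  obtain ⟨C2, hC2⟩ := hP
  obtain ⟨C3, hC3⟩ := hT
  obtain ⟨Ka, hKa0, hKa⟩ := step α β
  obtain ⟨Kb, hKb0, hKb⟩ := step β α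
  obtain ⟨Kc, hKc0, hKc⟩ := comb α β hJ
  obtain ⟨Kd, hKd0, hKd⟩ := hc_bound α β hJ
  set Γ₁ : ℝ := Kd * (2 * (Ka + Kb) + Kc) with hΓ₁
  have hΓ₁0 : 0 ≤ Γ₁ := by positivity
  set Γ : ℝ := |(α * conj β).re| * Γ₁ + ‖α‖ * ‖β‖ * Γ₁ + 1 with hΓ
  obtain ⟨k, hk⟩ := absorb Γ
  set P : ℕ := (C1 + 1) + (2 * C2 + 1) * C3 + 2 * C2 with hPd
  refine ⟨P + k + 2 + 2 * C2, ?_⟩
  intro e h δ z₀ w f g G m m' M M' u₀ he he2 hh hhC hδ0 hδ hS hcell hvol hM hM' haff hvir hvir2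
  have he1 : e ≤ 1 := by linarith
  have hh1 : h ≤ 1 := hhC.trans (pow_le_one₀ he.le he1)
  have hhP : h ≤ e ^ (P + k + 2) := hhC.trans (pow_le_pow_of_le_one he.le he1 (by omega))
  have hh2 : h ≤ (e ^ 2) ^ C2 := by
    rw [← pow_mul]
    exact hhC.trans (pow_le_pow_of_le_one he.le he1 (by omega))
  -- the fibre step
  obtain ⟨G', hG'm, hG'G, hG'v, hG'f⟩ := hC1 e h z₀ G m m' M M' he he2 hh hh1 hS.mG
    (fun x hx => ⟨hcell x hx, hS.ang x hx⟩) hvol (by
      intro x hx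
      have h1 := hvir x hx
      have h2 := hvir2 x hx
      have h3 : h ^ 2 / e ≤ h / e := by
        gcongr
        nlinarith
      have h4 : 2 * h / e = h / e + h / e := by ring
      rw [h4]
      rw [abs_le] at *
      constructor <;> linarith)
  -- the path
  have he3 : e ^ 2 ≤ e / 2 := by nlinarith
  obtain ⟨z, z'', T, hTm, hTs, hTv, hzz, hpath⟩ := hC2 (e ^ 2) h z₀ G' (by positivity)
    (by nlinarith) hh hh2 hG'm (fun x hx => ⟨hcell x (hG'G hx), hS.ang x (hG'G hx)⟩)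
    (le_trans (ENNReal.ofReal_le_ofReal (by gcongr)) hG'v)
  set e₁ : ℝ := e ^ (C1 + 1) with he₁
  have he₁0 : 0 < e₁ := by positivity
  have he₁e : e₁ ≤ e := by
    calc e₁ ≤ e ^ 1 := pow_le_pow_of_le_one he.le he1 (by omega)
      _ = e := pow_one e
  have he₁C : e₁ ≤ e ^ C1 := pow_le_pow_of_le_one he.le he1 (by omega)
  have he₁2 : e₁ ≤ 1 / 2 := he₁e.trans he2
  have q1 : 1 / e ≤ 1 / e₁ := one_div_le_one_div_of_le he₁0 he₁e
  have q2 : h ^ 2 / e ≤ h ^ 2 / e₁ := by gcongr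
  have q3 : h / e ^ C1 ≤ h / e₁ := by gcongr
  set D : ℂ := z'' - z with hD
  set Q : ℝ := (2 * (Ka + Kb) + Kc) * (h ^ 2 / e₁) with hQ
  have hQ0 : 0 ≤ Q := by positivity
  have hrel : ∀ t ∈ T, |(hc α β M (m z'' - m z) M' (m' z'' - m' z) D 0
        + hc α β M (m z'' - m z) M' (m' z'' - m' z) D 1 * ec t
        + hc α β M (m z'' - m z) M' (m' z'' - m' z) D 2 * ec (2 * t)
        + hc α β M (m z'' - m z) M' (m' z'' - m' z) D 3 * ec (3 * t)).re| ≤ Q := by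
    intro t ht
    obtain ⟨t', t'', hinge1, hinge2, hend⟩ := hpath t ht
    set y : ℂ × ℝ := turn α (z, t) t' with hy
    set y' : ℂ × ℝ := turn β y t'' with hy'
    obtain ⟨hxG, hyG, hlt, hfl, hpos⟩ := hinge1
    obtain ⟨-, hyG', hlt', hfl', hpos'⟩ := hinge2
    have hxG0 := hG'G hxG
    have hyG0 := hG'G hyG
    have hyG0' := hG'G hyG'
    have y2 : y.2 = t' := rfl
    have y2' : y'.2 = t'' := rfl
    have y1 : y.1 = z + α * (ec t - ec t') := rfl
    have y1' : y'.1 = y.1 + β * (ec t' - ec t'') := rfl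
    have hpos1 : z + α * ec t = y.1 + α * ec t' := hpos
    have hpos1' : y.1 + β * ec t' = y'.1 + β * ec t'' := hpos'
    have ht1 : |t' - t| ≤ h := Pool.Agent.H84.T2e.abs_sub_le_of_floor hh hfl
    have ht2 : |t'' - t'| ≤ h := Pool.Agent.H84.T2e.abs_sub_le_of_floor hh hfl'
    have hm1 : ‖m' y.1 - M'‖ ≤ h / e₁ := (hG'f y hyG).trans q3
    have hm2 : ‖m' y'.1 - M'‖ ≤ h / e₁ := (hG'f y' hyG').trans q3
    -- first hinge
    have s1 := hKa e₁ h δ t t' z y.1 (w z) (w y.1) (f (z + α * ec t)) (g (z + β * ec t))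
      (g (y.1 + β * ec t')) M (m z) (m y.1) M' (m' z) (m' y.1) u₀ he₁0 he₁2 hh hh1 hδ0 hδ ht1
      hpos1 (hS.force _ hxG0)
      (by
        have := hS.force _ hyG0
        rw [y2, ← hpos1] at this
        exact this)
      (hS.im _ hxG0)
      (by
        have := hS.im _ hyG0
        unfold mo at this
        rw [y2, ← hpos1] at this
        exact this)
      (by
        have h1 := hS.hi _ hyG0
        have h2 := hS.lo _ hyG0
        unfold mo at h1 h2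
        rw [y2, ← hpos1] at h1 h2
        rw [abs_le]
        constructor <;> linarith)
      (hM'.trans q1) ((haff _ hxG0).trans q2) ((haff _ hyG0).trans q2)
      ((hvir2 _ hxG0).trans q2)
      (by
        have := (hvir2 _ hyG0).trans q2
        unfold mo at this
        rw [y2, ← hpos1] at this
        exact this)
      hm1
    -- second hinge
    have s2 := hKb e₁ h δ t' t'' y.1 y'.1 (w y.1) (w y'.1) (g (y.1 + β * ec t'))
      (f (y.1 + α * ec t')) (f (y'.1 + α * ec t'')) M (m y.1) (m y'.1) M' (m' y.1) (m' y'.1) u₀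
      he₁0 he₁2 hh hh1 hδ0 hδ ht2 hpos1'
      (by
        have := hS.force _ hyG0
        rw [y2] at this
        rw [add_right_comm]
        exact this)
      (by
        have := hS.force _ hyG0'
        rw [y2', ← hpos1'] at this
        rw [add_right_comm]
        exact this)
      (by
        have := hS.im _ hyG0
        unfold mo at this
        rw [y2] at this
        rw [add_comm (conj β * _)]
        exact this)
      (by
        have := hS.im _ hyG0'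
        unfold mo at this
        rw [y2', ← hpos1'] at this
        rw [add_comm (conj β * _)]
        exact this)
      (by
        have h1 := hS.hi _ hyG0'
        have h2 := hS.lo _ hyG0'
        unfold mo at h1 h2
        rw [y2', ← hpos1'] at h1 h2
        rw [add_comm (conj β * _)]
        rw [abs_le]
        constructor <;> linarith)
      (hM'.trans q1) ((haff _ hyG0).trans q2) ((haff _ hyG0').trans q2)
      (by
        have := (hvir2 _ hyG0).trans q2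
        unfold mo at this
        rw [y2] at this
        rw [add_comm (conj β * _), Lp_comm]
        exact this)
      (by
        have := (hvir2 _ hyG0').trans q2
        unfold mo at this
        rw [y2', ← hpos1'] at this
        rw [add_comm (conj β * _), Lp_comm]
        exact this)
      hm2
    have q4 : Ka * (h ^ 2 / e₁) ≤ (Ka + Kb) * (h ^ 2 / e₁) := by
      gcongr
      linarith
    have q5 : Kb * (h ^ 2 / e₁) ≤ (Ka + Kb) * (h ^ 2 / e₁) := by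
      gcongr
      linarith
    have s3 := hKc e₁ h ((Ka + Kb) * (h ^ 2 / e₁)) t t' t'' z y.1 y'.1 M (m z) (m y.1) (m y'.1)
      M' (m' z) (m' y.1) (m' y'.1) he₁0 he₁2 hh hh1 ht1 ht2 y1 y1' (hM.trans q1) (hM'.trans q1)
      hm1 hm2 (s1.trans q4) (s2.trans q5)
    rw [hend, harm α β hJ] at s3
    refine s3.trans (le_of_eq ?_)
    rw [hQ]
    ring
  -- Remez
  set η : ℝ := e ^ (2 * C2 + 1) with hη
  have hη0 : 0 < η := by positivity
  have hη2 : η ≤ 1 / 2 := by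
    calc η ≤ e ^ 1 := pow_le_pow_of_le_one he.le he1 (by omega)
      _ ≤ 1 / 2 := by rw [pow_one]; exact he2
  have hηv : ENNReal.ofReal η ≤ volume T := by
    refine le_trans (ENNReal.ofReal_le_ofReal ?_) hTv
    rw [← pow_mul]
    exact pow_le_pow_of_le_one he.le he1 (by omega)
  have hrem := hC3 η Q T (hc α β M (m z'' - m z) M' (m' z'' - m' z) D) hη0 hη2 hQ0 hTm hTs hηv hrel
  have r1 := hrem 1 (by decide)
  have r3 := hrem 3 (by decide)
  obtain ⟨b1, b2⟩ := hKd M (m z'' - m z) (Q / η ^ C3) M' (m' z'' - m' z) D r1 r3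
  have hDpos : 0 < e ^ (2 * C2) * h := by positivity
  have hDn : e ^ (2 * C2) * h ≤ ‖D‖ := by
    rw [pow_mul]
    exact hzz
  have hgen : ∀ x : ℝ, 0 ≤ x → x * ‖D‖ ≤ Kd * (Q / η ^ C3) → x ≤ Γ₁ * (h / e ^ P) := by
    intro x hx hxD
    have h1 : x * (e ^ (2 * C2) * h) ≤ Kd * (Q / η ^ C3) :=
      (mul_le_mul_of_nonneg_left hDn hx).trans hxD
    have h2 : x ≤ Kd * (Q / η ^ C3) / (e ^ (2 * C2) * h) := by
      rw [le_div_iff₀ hDpos]
      exact h1
    refine h2.trans (le_of_eq ?_)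
    rw [hQ, hη, he₁, hPd, hΓ₁, pow_add e (C1 + 1 + (2 * C2 + 1) * C3), pow_add e (C1 + 1),
      pow_mul e (2 * C2 + 1) C3]
    field_simp
  have hMb := hgen |M| (abs_nonneg _) b2
  have hMb' := hgen ‖M'‖ (norm_nonneg _) b1
  -- a triangle
  have hne : G.Nonempty := by
    rw [nonempty_iff_ne_empty]
    rintro rfl
    rw [measure_empty] at hvol
    have : (0 : ℝ) < e * h ^ 2 := by positivity
    exact absurd (le_antisymm hvol bot_le) (ENNReal.ofReal_pos.2 this).ne'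
  obtain ⟨x, hx⟩ := hne
  have l1 := hS.lo x hx
  have l2 := hvir x hx
  have l3 := Lp_abs_le α β x.2 M M'
  have l4 : h / e ≤ h / e ^ P := by
    apply div_le_div_of_nonneg_left hh.le (by positivity)
    calc e ^ P ≤ e ^ 1 := pow_le_pow_of_le_one he.le he1 (by omega)
      _ = e := pow_one e
  have l5 : e ≤ Γ * (h / e ^ P) := by
    have h1 : |(α * conj β).re| * |M| ≤ |(α * conj β).re| * (Γ₁ * (h / e ^ P)) := by gcongr
    have h2 : ‖α‖ * ‖β‖ * ‖M'‖ ≤ ‖α‖ * ‖β‖ * (Γ₁ * (h / e ^ P)) := by gcongr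
    have h3 : Γ * (h / e ^ P) = |(α * conj β).re| * (Γ₁ * (h / e ^ P))
        + ‖α‖ * ‖β‖ * (Γ₁ * (h / e ^ P)) + h / e ^ P := by
      rw [hΓ]; ring
    rw [h3]
    rw [abs_le] at l2 l3
    linarith [l2.2, l3.2]
  have hΓ0 : 0 ≤ Γ := by positivity
  have l6 : Γ * (h / e ^ P) ≤ Γ * e ^ k * e ^ 2 := by
    have h1 : h / e ^ P ≤ e ^ k * e ^ 2 := by
      rw [div_le_iff₀ (by positivity)]
      refine hhP.trans (le_of_eq ?_)
      rw [pow_add, pow_add]
      ring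
    calc Γ * (h / e ^ P) ≤ Γ * (e ^ k * e ^ 2) := by gcongr
      _ = Γ * e ^ k * e ^ 2 := by ring
  have l7 : Γ * e ^ k * e ^ 2 ≤ 1 * e ^ 2 := by
    gcongr
    exact hk e he he2
  nlinarith

end Pool.Agent.H34.T2e
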