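import Pool.Agent.H34.T2e.End

/-!
# Field rigidity centred at a vertex, from the affine structure on two scales
-/

open MeasureTheory Set
open scoped ComplexConjugate Real
open Pool.Agent.H2.T2

namespace Pool.Agent.H34.T2e

/-- A dense set of triangles is dense in some cell. -/
theorem dense_cell (hCU : CU) : ∃ C : ℕ, ∀ (η s : ℝ) (G : Set (ℂ × ℝ)),
    0 < η → η ≤ 1 / 2 → 0 < s → s ≤ 1 → MeasurableSet G →
    (∀ x ∈ G, ‖x.1‖ ≤ 1 / η ∧ 0 ≤ x.2 ∧ x.2 < 2 * π) → ENNReal.ofReal η ≤ volume G →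
    ∃ k, ENNReal.ofReal (η ^ C * s ^ 2) ≤ volume (G ∩ {x | cellOf s x.1 = k}) := by
  obtain ⟨C, hC⟩ := hCU
  refine ⟨C, ?_⟩
  intro η s G hη hη2 hs hs1 hG hreg hvol
  by_contra hcon
  push Not at hcon
  have h := hC η s 1 G (fun _ => ∅) hη hη2 hs hs1 zero_le_one hG hreg hvol
    (fun k => ⟨MeasurableSet.empty, empty_subset _⟩)
    (fun k hk => absurd hk (not_le.2 (hcon k)))
  rw [iUnion_empty, measure_empty, one_mul] at h
  have : (0 : ℝ) < η ^ C := by positivity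
  exact absurd (le_antisymm h bot_le) (ENNReal.ofReal_pos.2 this).ne'

theorem sys_mono {α β : ℂ} {η η' δ : ℝ} {w f g : ℂ → ℂ} {G G' : Set (ℂ × ℝ)} (hη' : 0 < η')
    (hle : η' ≤ η) (hG' : MeasurableSet G') (hsub : G' ⊆ G) (h : Sys α β η δ w f g G) :
    Sys α β η' δ w f g G' :=
  { mw := h.mw
    mf := h.mf
    mg := h.mg
    mG := hG'
    ang := fun x hx => h.ang x (hsub hx)
    force := fun x hx => h.force x (hsub hx)
    im := fun x hx => h.im x (hsub hx)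
    lo := fun x hx => hle.trans (h.lo x (hsub hx))
    hi := fun x hx => (h.hi x (hsub hx)).trans (one_div_le_one_div_of_le hη' hle) }

/-- Field rigidity. -/
theorem frz_of' {α β : ℂ} (hJ : (α * conj β).im ≠ 0) (hAG : AG α β) (hF : Fib α β)
    (hP : Pool.Agent.H84.T2e.PathC α β) (hT : RemezT) (hCU : CU) : FRz α β := by
  obtain ⟨CE, hCE⟩ := endP hJ hF hP hT
  obtain ⟨CA, hCA⟩ := hAG
  obtain ⟨CD, hCD⟩ := dense_cell hCU
  -- scales
  set A : ℕ := CA + 1 with hA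
  set B : ℕ := A * A * (CD + 1) with hB
  set N : ℕ := B * (CE + 1) + A * A with hN
  refine ⟨6 * N, ?_⟩
  intro η δ w f g G hη hη2 hδ0 hδ hS hreg hvol
  have hη1 : η ≤ 1 := by linarith
  set h : ℝ := η ^ N with hh
  have hh0 : 0 < h := by positivity
  have hh1 : h ≤ 1 := pow_le_one₀ hη.le hη1
  -- first scale
  have hhA : h ≤ η ^ CA := by
    refine pow_le_pow_of_le_one hη.le hη1 ?_
    rw [hN, hA]
    nlinarith [Nat.zero_le (B * (CE + 1))]
  have hδh : δ ≤ h ^ 2 := by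
    refine hδ.trans ?_
    rw [hh, ← pow_mul]
    exact pow_le_pow_of_le_one hη.le hη1 (by omega)
  obtain ⟨G₁, U, M', M, hG₁m, hG₁G, hG₁v, hMb, hMb', hG₁⟩ := hCA η h δ w f g G hη hη2 hh0 hhA hδ0
    hδh hS hreg hvol
  -- second scale
  set η₁ : ℝ := η ^ A with hη₁
  have hη₁0 : 0 < η₁ := by positivity
  have hη₁η : η₁ ≤ η := by
    calc η₁ ≤ η ^ 1 := pow_le_pow_of_le_one hη.le hη1 (by omega)
      _ = η := pow_one η
  have hη₁C : η₁ ≤ η ^ CA := pow_le_pow_of_le_one hη.le hη1 (by omega)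
  have hη₁2 : η₁ ≤ 1 / 2 := hη₁η.trans hη2
  have hη₁1 : η₁ ≤ 1 := hη₁η.trans hη1
  have hS₁ : Sys α β η₁ δ w f g G₁ := sys_mono hη₁0 hη₁η hG₁m hG₁G hS
  set s : ℝ := h ^ 3 with hs
  have hs0 : 0 < s := by positivity
  have hsA : s ≤ η₁ ^ CA := by
    rw [hs, hh, hη₁, ← pow_mul, ← pow_mul]
    refine pow_le_pow_of_le_one hη.le hη1 ?_
    rw [hN]
    nlinarith [Nat.zero_le (B * (CE + 1)), Nat.zero_le A]
  have hδs : δ ≤ s ^ 2 := by
    refine hδ.trans (le_of_eq ?_)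
    rw [hs, hh, ← pow_mul, ← pow_mul]
    congr 1
    ring
  obtain ⟨G₂, u₂, m₂', m₂, hG₂m, hG₂G, hG₂v, hmb, hmb', hG₂⟩ := hCA η₁ s δ w f g G₁ hη₁0 hη₁2 hs0
    hsA hδ0 hδs hS₁
    (fun x hx => (hreg x (hG₁G hx)).trans (one_div_le_one_div_of_le hη₁0 hη₁η))
    (le_trans (ENNReal.ofReal_le_ofReal hη₁C) hG₁v)
  -- a dense cell
  set η₂ : ℝ := η ^ (A * A) with hη₂
  have hη₂0 : 0 < η₂ := by positivity
  have hη₂η₁ : η₂ ≤ η₁ := pow_le_pow_of_le_one hη.le hη1 (by nlinarith [Nat.zero_le A])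
  have hη₂C : η₂ ≤ η₁ ^ CA := by
    rw [hη₂, hη₁, ← pow_mul]
    exact pow_le_pow_of_le_one hη.le hη1 (by nlinarith [Nat.zero_le A])
  have hη₂2 : η₂ ≤ 1 / 2 := hη₂η₁.trans hη₁2
  obtain ⟨k, hk⟩ := hCD η₂ h G₂ hη₂0 hη₂2 hh0 hh1 hG₂m
    (fun x hx => ⟨(hreg x (hG₁G (hG₂G hx))).trans
      (one_div_le_one_div_of_le hη₂0 (hη₂η₁.trans hη₁η)), hS₁.ang x (hG₂G hx)⟩)
    (le_trans (ENNReal.ofReal_le_ofReal hη₂C) hG₂v)
  set G₃ : Set (ℂ × ℝ) := G₂ ∩ {x | cellOf h x.1 = k} with hG₃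
  have hG₃m : MeasurableSet G₃ :=
    hG₂m.inter (((measurable_cellOf h).comp measurable_fst) (MeasurableSet.singleton k))
  set e : ℝ := η ^ B with he
  have he0 : 0 < e := by positivity
  have heη₂ : e ≤ η₂ := pow_le_pow_of_le_one hη.le hη1 (by
    rw [hB]; nlinarith [Nat.zero_le (A * A * CD)])
  have heC : e ≤ η₂ ^ CD := by
    rw [he, hη₂, ← pow_mul]
    exact pow_le_pow_of_le_one hη.le hη1 (by rw [hB]; nlinarith [Nat.zero_le (A * A)])
  have he2 : e ≤ 1 / 2 := heη₂.trans hη₂2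
  have he1 : e ≤ 1 := by linarith
  have heη₁ : e ≤ η₁ := heη₂.trans hη₂η₁
  have heη : e ≤ η := heη₁.trans hη₁η
  have heA : e ≤ η ^ CA := heη₁.trans hη₁C
  have heA2 : e ≤ η₁ ^ CA := heη₂.trans hη₂C
  have hhe : h ≤ e ^ CE := by
    rw [hh, he, ← pow_mul]
    refine pow_le_pow_of_le_one hη.le hη1 ?_
    rw [hN]
    nlinarith [Nat.zero_le (A * A), Nat.zero_le B]
  have hhe1 : h ≤ e := by
    rw [hh, he]
    refine pow_le_pow_of_le_one hη.le hη1 ?_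
    rw [hN]
    nlinarith [Nat.zero_le (A * A), Nat.zero_le (B * CE)]
  refine hCE e h δ (corner h k) w f g G₃ (fun z => m₂ (cellOf s z)) (fun z => m₂' (cellOf s z))
    (M k) (M' k) (U k) he0 he2 hh0 hhe hδ0 hδh
    (sys_mono he0 heη₁ hG₃m (inter_subset_left.trans hG₂G) hS₁) ?_ ?_ ?_ ?_ ?_ ?_ ?_
  · intro x hx
    have : x.1 ∈ {z | cellOf h z = k} := hx.2
    rw [cell_eq_sq hh0] at this
    exact this
  · refine le_trans (ENNReal.ofReal_le_ofReal ?_) hk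
    gcongr
  · exact (hMb k).trans (one_div_le_one_div_of_le he0 heA)
  · exact (hMb' k).trans (one_div_le_one_div_of_le he0 heA)
  · intro x hx
    have h1 := (hG₁ x (hG₂G hx.1)).1
    have h2 : cellOf h x.1 = k := hx.2
    rw [h2] at h1
    exact h1.trans (by gcongr)
  · intro x hx
    have h1 := (hG₁ x (hG₂G hx.1)).2
    have h2 : cellOf h x.1 = k := hx.2
    rw [h2] at h1
    exact h1.trans (by gcongr)
  · intro x hx
    have h1 := (hG₂ x hx.1).2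
    refine le_trans h1 ?_
    have h3 : s / η₁ ^ CA ≤ s / e := by gcongr
    refine h3.trans ?_
    have h4 : s ≤ h ^ 2 := by
      rw [hs]
      exact pow_le_pow_of_le_one hh0.le hh1 (by norm_num)
    gcongr

/-- Field rigidity from the affine structure. -/
theorem frz_of {α β : ℂ} (hNR : NR α β) (hAG : AG α β) (hPa : Prune α) (hPb : Prune β)
    (hF : Fib α β) (hT : RemezT) (hCU : CU) : FRz α β :=
  frz_of' hNR.1 hAG hF (Pool.Agent.H84.T2e.path_of hNR.1 hPa hPb) hT hCU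

end Pool.Agent.H34.T2e
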