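import Pool.Agent.H34.T2e.Comb

/-!
# The harmonics of the relation, and the bounds of the slopes
-/

open MeasureTheory Set
open scoped ComplexConjugate Real
open Pool.Agent.H2.T2

namespace Pool.Agent.H34.T2e

/-- The coefficients of the relation as a trigonometric polynomial. -/
noncomputable def hc (α β : ℂ) (M dm : ℝ) (M' dm' D : ℂ) : Fin 4 → ℂ :=
  ![(((α * conj β).re * dm : ℝ) : ℂ),
    M * conj D * (α + β)
      - ((3 / (2 * (α * conj β).im) : ℝ) : ℂ) * Complex.I * (α * β * conj M')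
        * (D * conj (β - α)),
    -(α * β * conj dm'),
    -(((3 / (2 * (α * conj β).im) : ℝ) : ℂ) * Complex.I * (α * β * conj M')
        * (conj D * (β - α)))]

theorem ec_three (t : ℝ) : ec (3 * t) = ec t ^ 3 := by
  have : 3 * t = t + (t + t) := by ring
  rw [this, ec_add, ec_add]
  ring

theorem harm (α β : ℂ) (hJ : (α * conj β).im ≠ 0) (φ M dm : ℝ) (M' dm' D : ℂ) :
    Lp α β φ dm dm' - Gp α β M M' φ D
      = (hc α β M dm M' dm' D 0 + hc α β M dm M' dm' D 1 * ec φ
        + hc α β M dm M' dm' D 2 * ec (2 * φ) + hc α β M dm M' dm' D 3 * ec (3 * φ)).re := by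
  have hcc : conj (ec φ) * ec φ = 1 := conj_ec_mul φ
  simp only [hc, Matrix.cons_val_zero, Matrix.cons_val_one, Matrix.cons_val]
  unfold Lp Gp
  set J : ℝ := (α * conj β).im with hJd
  set θ : ℂ := ec φ with hθ
  set p : ℂ := α * β * conj M' with hp
  set q : ℂ := conj D * (β - α) with hq
  have e1 : (conj (α * β) * dm' * ec (-2 * φ)).re = (α * β * conj dm' * ec (2 * φ)).re := by
    have : α * β * conj dm' * ec (2 * φ) = conj (conj (α * β) * dm' * ec (-2 * φ)) := by
      rw [ec_neg_two, ec_two]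
      simp only [map_mul, map_pow, Complex.conj_conj]
    rw [this, Complex.conj_re]
  have e2 : (conj θ * D * conj (α + β)).re = (conj D * (α + β) * θ).re := by
    have : conj D * (α + β) * θ = conj (conj θ * D * conj (α + β)) := by
      simp only [map_mul, Complex.conj_conj]
      ring
    rw [this, Complex.conj_re]
  have e3 : (conj (α * β) * M' * ec (-2 * φ)).im = -(p * θ ^ 2).im := by
    have : p * θ ^ 2 = conj (conj (α * β) * M' * ec (-2 * φ)) := by
      rw [ec_neg_two, hp]
      simp only [map_mul, map_pow, Complex.conj_conj]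
      ring
    rw [this, Complex.conj_im, neg_neg]
  have e4 : (conj θ * D * conj (β - α)).re = (q * θ).re := by
    have : q * θ = conj (conj θ * D * conj (β - α)) := by
      rw [hq]
      simp only [map_mul, Complex.conj_conj]
      ring
    rw [this, Complex.conj_re]
  have e5 : (p * θ ^ 2).im * (q * θ).re = ((p * q * θ ^ 3).im + (p * conj q * θ).im) / 2 := by
    have h1 : p * q * θ ^ 3 = (p * θ ^ 2) * (q * θ) := by ring
    have h2 : p * conj q * θ = (p * θ ^ 2) * conj (q * θ) := by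
      have h3 : conj (q * θ) = conj q * conj θ := map_mul _ _ _
      rw [h3]
      linear_combination (-p * conj q * θ) * hcc
    rw [h1, h2]
    simp only [Complex.mul_im, Complex.conj_re, Complex.conj_im]
    ring
  have e6 : (((α * conj β).re * dm : ℝ) : ℂ)
      + (M * conj D * (α + β) - ((3 / (2 * J) : ℝ) : ℂ) * Complex.I * p * (D * conj (β - α))) * θ
      + -(α * β * conj dm') * ec (2 * φ)
      + -(((3 / (2 * J) : ℝ) : ℂ) * Complex.I * p * q) * ec (3 * φ)
      = (((α * conj β).re * dm : ℝ) : ℂ) + ((M : ℝ) : ℂ) * (conj D * (α + β) * θ)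
        - ((3 / (2 * J) : ℝ) : ℂ) * (Complex.I * (p * conj q * θ))
        - α * β * conj dm' * ec (2 * φ)
        - ((3 / (2 * J) : ℝ) : ℂ) * (Complex.I * (p * q * θ ^ 3)) := by
    rw [ec_three, hq]
    simp only [map_mul, Complex.conj_conj]
    ring
  rw [e1, e2, e3, e4, e6]
  simp only [Complex.add_re, Complex.sub_re, Complex.re_ofReal_mul, Complex.ofReal_re]
  have e7 : ∀ x : ℂ, (Complex.I * x).re = -x.im := by
    intro x
    simp
  rw [e7, e7]
  have e8 : 3 / J * -(p * θ ^ 2).im * (q * θ).re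
      = -(3 / J) * (((p * q * θ ^ 3).im + (p * conj q * θ).im) / 2) := by
    rw [← e5]; ring
  rw [e8]
  field_simp
  ring

/-- Bounds of the slopes by the coefficients. -/
theorem hc_bound (α β : ℂ) (hJ : (α * conj β).im ≠ 0) : ∃ C : ℝ, 0 ≤ C ∧
    ∀ (M dm B : ℝ) (M' dm' D : ℂ), ‖hc α β M dm M' dm' D 1‖ ≤ B → ‖hc α β M dm M' dm' D 3‖ ≤ B →
    ‖M'‖ * ‖D‖ ≤ C * B ∧ |M| * ‖D‖ ≤ C * B := by
  have hα : α ≠ 0 := by
    rintro rfl
    simp at hJ
  have hβ : β ≠ 0 := by
    rintro rfl
    simp at hJ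
  have hs : α + β ≠ 0 := by
    intro h
    have : β = -α := by linear_combination h
    rw [this] at hJ
    apply hJ
    simp only [map_neg, Complex.mul_im, Complex.neg_im, Complex.conj_im, Complex.neg_re,
      Complex.conj_re]
    ring
  have hd : β - α ≠ 0 := by
    intro h
    have : β = α := by linear_combination h
    rw [this] at hJ
    apply hJ
    simp only [Complex.mul_im, Complex.conj_im, Complex.conj_re]
    ring
  have hα' : 0 < ‖α‖ := norm_pos_iff.2 hα
  have hβ' : 0 < ‖β‖ := norm_pos_iff.2 hβ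
  have hs' : 0 < ‖α + β‖ := norm_pos_iff.2 hs
  have hd' : 0 < ‖β - α‖ := norm_pos_iff.2 hd
  have hJ' : 0 < |(α * conj β).im| := abs_pos.2 hJ
  set κ : ℝ := 3 / (2 * |(α * conj β).im|) * (‖α‖ * ‖β‖) * ‖β - α‖ with hκ
  have hκ0 : 0 < κ := by positivity
  refine ⟨1 / κ + 2 / ‖α + β‖, by positivity, ?_⟩
  intro M dm B M' dm' D h1 h3
  have hJn : ‖((3 / (2 * (α * conj β).im) : ℝ) : ℂ)‖ = 3 / (2 * |(α * conj β).im|) := by
    rw [Complex.norm_real, Real.norm_eq_abs, abs_div, abs_mul]
    norm_num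
  have n3 : ‖hc α β M dm M' dm' D 3‖ = κ * (‖M'‖ * ‖D‖) := by
    simp only [hc, Matrix.cons_val]
    rw [norm_neg, norm_mul, norm_mul, norm_mul, hJn, Complex.norm_I, norm_mul, norm_mul, norm_mul,
      norm_conj', norm_conj', hκ]
    ring
  have n1 : |M| * ‖D‖ * ‖α + β‖ ≤ ‖hc α β M dm M' dm' D 1‖ + κ * (‖M'‖ * ‖D‖) := by
    have e1 : (M : ℂ) * conj D * (α + β) = hc α β M dm M' dm' D 1
        + ((3 / (2 * (α * conj β).im) : ℝ) : ℂ) * Complex.I * (α * β * conj M')
        * (D * conj (β - α)) := by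
      simp only [hc, Matrix.cons_val]
      ring
    have e2 : ‖(M : ℂ) * conj D * (α + β)‖ = |M| * ‖D‖ * ‖α + β‖ := by
      rw [norm_mul, norm_mul, norm_conj', Complex.norm_real, Real.norm_eq_abs]
    have e3 : ‖((3 / (2 * (α * conj β).im) : ℝ) : ℂ) * Complex.I * (α * β * conj M')
        * (D * conj (β - α))‖ = κ * (‖M'‖ * ‖D‖) := by
      rw [norm_mul, norm_mul, norm_mul, hJn, Complex.norm_I, norm_mul, norm_mul, norm_mul,
        norm_conj', norm_conj', hκ]
      ring
    rw [← e2, e1, ← e3]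
    exact norm_add_le _ _
  rw [n3] at h3
  have hB : 0 ≤ B := le_trans (norm_nonneg _) h1
  constructor
  · have : ‖M'‖ * ‖D‖ ≤ 1 / κ * B := by
      rw [div_mul_eq_mul_div, one_mul, le_div_iff₀ hκ0]
      linarith
    have h5 : 0 ≤ 2 / ‖α + β‖ * B := by positivity
    linarith
  · have : |M| * ‖D‖ ≤ 2 / ‖α + β‖ * B := by
      rw [div_mul_eq_mul_div, le_div_iff₀ hs']
      linarith
    have h5 : 0 ≤ 1 / κ * B := by positivity
    linarith

end Pool.Agent.H34.T2e
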