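import Pool.Agent.H2.T2.Cell

/-!
# One hinge step for the slopes
-/

open MeasureTheory Set
open scoped ComplexConjugate Real
open Pool.Agent.H2.T2

namespace Pool.Agent.H34.T2e

/-- The virial predicted by the slopes `m`, `m'`. -/
noncomputable def Lp (α β : ℂ) (φ : ℝ) (m : ℝ) (m' : ℂ) : ℝ :=
  (α * conj β).re * m - (conj (α * β) * m' * ec (-2 * φ)).re

theorem ec_diff_le (s t : ℝ) : ‖ec s - ec t‖ ≤ |s - t| := by
  have h1 : ec s - ec t = ec t * (Complex.exp (Complex.I * ((s - t : ℝ) : ℂ)) - 1) := by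
    have : ec s = ec t * Complex.exp (Complex.I * ((s - t : ℝ) : ℂ)) := by
      unfold ec
      rw [← Complex.exp_add]
      congr 1
      push_cast
      ring
    rw [this]
    ring
  rw [h1, norm_mul, norm_ec, one_mul]
  have := Real.norm_exp_I_mul_ofReal_sub_one_le (x := s - t)
  simpa using this

theorem ec_two (t : ℝ) : ec (2 * t) = ec t ^ 2 := by
  rw [two_mul, ec_add]
  ring

theorem ec_neg_two (t : ℝ) : ec (-2 * t) = conj (ec t) ^ 2 := by
  rw [conj_ec, ← ec_two]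
  congr 1
  ring

theorem conj_ec_mul (t : ℝ) : conj (ec t) * ec t = 1 := by
  rw [mul_comm, ec_mul_conj]

theorem norm_conj' (z : ℂ) : ‖conj z‖ = ‖z‖ := by simp

theorem abs_re_le' (z : ℂ) : |z.re| ≤ ‖z‖ := Complex.abs_re_le_norm z

/-- The relation given by one hinge. -/
theorem step (α β : ℂ) : ∃ C : ℝ, 0 ≤ C ∧ ∀ (e h δ φ φ' : ℝ) (z z' w w' f g g' : ℂ)
    (M m n : ℝ) (M' m' n' u₀ : ℂ),
    0 < e → e ≤ 1 / 2 → 0 < h → h ≤ 1 → 0 ≤ δ → δ ≤ h ^ 2 → |φ' - φ| ≤ h →
    z + α * ec φ = z' + α * ec φ' → ‖w + f + g‖ ≤ δ → ‖w' + f + g'‖ ≤ δ →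
    |(conj (ec φ) * (conj α * f + conj β * g)).im| ≤ δ →
    |(conj (ec φ') * (conj α * f + conj β * g')).im| ≤ δ →
    |(conj (ec φ') * (conj α * f + conj β * g')).re| ≤ 1 / e → ‖M'‖ ≤ 1 / e →
    ‖w - u₀ - M * z - M' * conj z‖ ≤ h ^ 2 / e → ‖w' - u₀ - M * z' - M' * conj z'‖ ≤ h ^ 2 / e →
    |(conj (ec φ) * (conj α * f + conj β * g)).re - Lp α β φ m m'| ≤ h ^ 2 / e →
    |(conj (ec φ') * (conj α * f + conj β * g')).re - Lp α β φ' n n'| ≤ h ^ 2 / e →
    ‖n' - M'‖ ≤ h / e →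
    |Lp α β φ (n - m) (n' - m') + M * (conj (ec φ) * conj β * (z' - z)).re
      + 3 * (conj (ec φ) * conj β * M' * conj (z' - z)).re| ≤ C * (h ^ 2 / e) := by
  refine ⟨100 * (1 + ‖α‖ + ‖β‖) ^ 3, by positivity, ?_⟩
  intro e h δ φ φ' z z' w w' f g g' M m n M' m' n' u₀ he he2 hh hh1 hδ hδh hφ hz hw hw' him him'
    hre hM hwa hwa' hν hν' hn
  set A : ℝ := 1 + ‖α‖ + ‖β‖ with hA
  have hA1 : 1 ≤ A := by
    have := norm_nonneg α
    have := norm_nonneg β
    linarith
  have hαA : ‖α‖ ≤ A := by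
    have := norm_nonneg β
    linarith
  have hβA : ‖β‖ ≤ A := by
    have := norm_nonneg α
    linarith
  set θ : ℂ := ec φ with hθ
  set θ' : ℂ := ec φ' with hθ'
  set mo : ℂ := conj θ * (conj α * f + conj β * g) with hmo
  set mo' : ℂ := conj θ' * (conj α * f + conj β * g') with hmo'
  have hθ1 : ‖θ‖ = 1 := norm_ec φ
  have hθ1' : ‖θ'‖ = 1 := norm_ec φ'
  have hdθ : ‖θ' - θ‖ ≤ h := (ec_diff_le φ' φ).trans hφ
  have hcc : conj θ * θ = 1 := conj_ec_mul φ
  have hcc' : conj θ' * θ' = 1 := conj_ec_mul φ'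
  have hq : h ^ 2 ≤ h ^ 2 / e := by
    rw [le_div_iff₀ he]
    nlinarith [sq_nonneg h]
  have hq0 : 0 ≤ h ^ 2 / e := by positivity
  -- the force relation
  have h1 : conj β * (w' - w) = conj β * ((w' + f + g') - (w + f + g)) - (θ' * mo' - θ * mo) := by
    have e1 : θ * mo = conj α * f + conj β * g := by
      rw [hmo, ← mul_assoc, mul_comm θ (conj θ), hcc, one_mul]
    have e2 : θ' * mo' = conj α * f + conj β * g' := by
      rw [hmo', ← mul_assoc, mul_comm θ' (conj θ'), hcc', one_mul]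
    rw [e1, e2]
    ring
  set D : ℂ := z' - z with hD
  have hDα : D = α * (θ - θ') := by
    rw [hD]
    linear_combination (-1 : ℂ) * hz
  have hDc : conj α * (conj θ' - conj θ) = -conj D := by
    rw [hDα]
    simp only [map_mul, map_sub]
    ring
  set R2 : ℂ := (w' - u₀ - M * z' - M' * conj z') - (w - u₀ - M * z - M' * conj z) with hR2
  have h2 : w' - w = M * D + M' * conj D + R2 := by
    rw [hR2, hD, map_sub]
    ring
  have hR2n : ‖R2‖ ≤ 2 * (h ^ 2 / e) := by
    refine (norm_sub_le _ _).trans ?_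
    linarith
  have hang : ec (-2 * φ') - ec (-2 * φ)
      = 2 * conj θ * (conj θ' - conj θ) + (conj θ' - conj θ) ^ 2 := by
    rw [ec_neg_two, ec_neg_two]
    ring
  have hθc : ‖conj θ' - conj θ‖ ≤ h := by
    rw [← map_sub, norm_conj']
    exact hdθ
  set T1 : ℝ := (conj α * conj β * M' * (conj θ' - conj θ) ^ 2).re with hT1
  set T2 : ℝ := (conj (α * β) * (n' - M') * (ec (-2 * φ') - ec (-2 * φ))).re with hT2
  set T3 : ℝ := mo'.re - (conj θ * (θ' * mo')).re with hT3
  set T4 : ℝ := (conj θ * conj β * ((w' + f + g') - (w + f + g))).re with hT4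
  set T5 : ℝ := (conj θ * conj β * R2).re with hT5
  have hmain : Lp α β φ (n - m) (n' - m') + M * (conj θ * conj β * D).re
      + 3 * (conj θ * conj β * M' * conj D).re
      = -(mo'.re - Lp α β φ' n n') + (mo.re - Lp α β φ m m') + T1 + T2 + T3 + T4 - T5 := by
    have k1 : (conj θ * (conj β * (w' - w))).re
        = T4 - (conj θ * (θ' * mo')).re + mo.re := by
      rw [h1, hT4]
      have : conj θ * (conj β * (w' + f + g' - (w + f + g)) - (θ' * mo' - θ * mo))
          = conj θ * conj β * (w' + f + g' - (w + f + g)) - conj θ * (θ' * mo')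
            + (conj θ * θ) * mo := by ring
      rw [this, hcc, one_mul, Complex.add_re, Complex.sub_re]
    have k2 : (conj θ * (conj β * (w' - w))).re
        = M * (conj θ * conj β * D).re + (conj θ * conj β * M' * conj D).re + T5 := by
      rw [h2, hT5]
      have : conj θ * (conj β * (M * D + M' * conj D + R2))
          = (M : ℂ) * (conj θ * conj β * D) + conj θ * conj β * M' * conj D
            + conj θ * conj β * R2 := by ring
      rw [this, Complex.add_re, Complex.add_re, Complex.re_ofReal_mul]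
    have k3 : Lp α β φ' n n' - Lp α β φ m m' = Lp α β φ (n - m) (n' - m')
        + 2 * (conj θ * conj β * M' * conj D).re - T1 - T2 := by
      have e1 : (conj (α * β) * n' * ec (-2 * φ')).re
          = (conj (α * β) * n' * ec (-2 * φ)).re
            - 2 * (conj θ * conj β * M' * conj D).re + T1 + T2 := by
        have e2 : conj (α * β) * n' * ec (-2 * φ')
            = conj (α * β) * n' * ec (-2 * φ) + (((2 : ℝ) : ℂ) * -(conj θ * conj β * M' * conj D)
              + conj α * conj β * M' * (conj θ' - conj θ) ^ 2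
              + conj (α * β) * (n' - M') * (ec (-2 * φ') - ec (-2 * φ))) := by
          have e3 : ec (-2 * φ') = ec (-2 * φ) + (2 * conj θ * (conj θ' - conj θ)
              + (conj θ' - conj θ) ^ 2) := by
            rw [← hang]; ring
          have e4 : conj D = -(conj α * (conj θ' - conj θ)) := by rw [hDc]; ring
          rw [e3, e4, map_mul]
          push_cast
          ring
        rw [e2]
        simp only [Complex.add_re, Complex.re_ofReal_mul, Complex.neg_re]
        rw [hT1, hT2]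
        ring
      unfold Lp
      rw [e1]
      have e5 : (conj (α * β) * (n' - m') * ec (-2 * φ)).re
          = (conj (α * β) * n' * ec (-2 * φ)).re - (conj (α * β) * m' * ec (-2 * φ)).re := by
        rw [← Complex.sub_re]
        congr 1
        ring
      rw [e5]
      ring
    rw [hT3]
    linarith
  rw [hmain]
  have hA0 : 0 ≤ A := by linarith
  have hA2 : A ≤ A ^ 2 := by nlinarith
  have hA3 : A ^ 2 ≤ A ^ 3 := by nlinarith [sq_nonneg A]
  have hA4 : 1 ≤ A ^ 3 := one_le_pow₀ hA1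
  have b1 : |T1| ≤ A ^ 2 * (h ^ 2 / e) := by
    rw [hT1]
    refine (abs_re_le' _).trans ?_
    rw [norm_mul, norm_mul, norm_mul, norm_pow, norm_conj', norm_conj']
    calc ‖α‖ * ‖β‖ * ‖M'‖ * ‖conj θ' - conj θ‖ ^ 2 ≤ A * A * (1 / e) * h ^ 2 := by gcongr
      _ = A ^ 2 * (h ^ 2 / e) := by ring
  have b2 : |T2| ≤ 4 * (A ^ 2 * (h ^ 2 / e)) := by
    rw [hT2]
    refine (abs_re_le' _).trans ?_
    rw [norm_mul, norm_mul, norm_conj', norm_mul]
    have e1 : ‖ec (-2 * φ') - ec (-2 * φ)‖ ≤ 2 * h := by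
      refine (ec_diff_le _ _).trans ?_
      have : -2 * φ' - -2 * φ = (-2) * (φ' - φ) := by ring
      rw [this, abs_mul]
      norm_num
      exact hφ
    calc ‖α‖ * ‖β‖ * ‖n' - M'‖ * ‖ec (-2 * φ') - ec (-2 * φ)‖
        ≤ A * A * (h / e) * (2 * h) := by gcongr
      _ = 2 * (A ^ 2 * (h ^ 2 / e)) := by ring
      _ ≤ 4 * (A ^ 2 * (h ^ 2 / e)) := by
        have : 0 ≤ A ^ 2 * (h ^ 2 / e) := by positivity
        linarith
  have b3 : |T3| ≤ 2 * (h ^ 2 / e) := by
    have e1 : (conj θ * (θ' * mo')).re = (conj θ * θ').re * mo'.re - (conj θ * θ').im * mo'.im := by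
      rw [← mul_assoc, Complex.mul_re]
    have e2 : 1 - (conj θ * θ').re = ‖θ' - θ‖ ^ 2 / 2 := by
      have n1 : Complex.normSq θ = 1 := by rw [Complex.normSq_eq_norm_sq, hθ1]; norm_num
      have n2 : Complex.normSq θ' = 1 := by rw [Complex.normSq_eq_norm_sq, hθ1']; norm_num
      rw [← Complex.normSq_eq_norm_sq, Complex.normSq_sub, n1, n2]
      rw [mul_comm θ' (conj θ)]
      ring
    have e3 : |(conj θ * θ').im| ≤ 1 := by
      refine (Complex.abs_im_le_norm _).trans ?_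
      rw [norm_mul, norm_conj', hθ1, hθ1', one_mul]
    have e4 : T3 = (1 - (conj θ * θ').re) * mo'.re + (conj θ * θ').im * mo'.im := by
      rw [hT3, e1]; ring
    rw [e4, e2]
    refine (abs_add_le _ _).trans ?_
    rw [abs_mul, abs_mul]
    have e5 : |‖θ' - θ‖ ^ 2 / 2| ≤ h ^ 2 / 2 := by
      rw [abs_of_nonneg (by positivity)]
      gcongr
    have hE : (0 : ℝ) ≤ 1 / e := by positivity
    calc |‖θ' - θ‖ ^ 2 / 2| * |mo'.re| + |(conj θ * θ').im| * |mo'.im|
        ≤ h ^ 2 / 2 * (1 / e) + 1 * δ := by gcongr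
      _ ≤ 2 * (h ^ 2 / e) := by
        have : h ^ 2 / 2 * (1 / e) = (h ^ 2 / e) / 2 := by ring
        rw [this]
        linarith
  have b4 : |T4| ≤ 2 * (A * (h ^ 2 / e)) := by
    rw [hT4]
    refine (abs_re_le' _).trans ?_
    rw [norm_mul, norm_mul, norm_conj', norm_conj', hθ1, one_mul]
    have e1 : ‖w' + f + g' - (w + f + g)‖ ≤ 2 * (h ^ 2 / e) := by
      refine (norm_sub_le _ _).trans ?_
      linarith
    calc ‖β‖ * ‖w' + f + g' - (w + f + g)‖ ≤ A * (2 * (h ^ 2 / e)) := by gcongr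
      _ = 2 * (A * (h ^ 2 / e)) := by ring
  have b5 : |T5| ≤ 2 * (A * (h ^ 2 / e)) := by
    rw [hT5]
    refine (abs_re_le' _).trans ?_
    rw [norm_mul, norm_mul, norm_conj', norm_conj', hθ1, one_mul]
    calc ‖β‖ * ‖R2‖ ≤ A * (2 * (h ^ 2 / e)) := by gcongr
      _ = 2 * (A * (h ^ 2 / e)) := by ring
  have c1 : A ^ 2 * (h ^ 2 / e) ≤ A ^ 3 * (h ^ 2 / e) := by gcongr
  have c2 : A * (h ^ 2 / e) ≤ A ^ 3 * (h ^ 2 / e) := mul_le_mul_of_nonneg_right (hA2.trans hA3) hq0
  have c3 : h ^ 2 / e ≤ A ^ 3 * (h ^ 2 / e) := le_mul_of_one_le_left hq0 hA4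
  have hfin : 100 * A ^ 3 * (h ^ 2 / e) = 100 * (A ^ 3 * (h ^ 2 / e)) := by ring
  rw [hfin]
  rw [abs_le] at *
  obtain ⟨hν1, hν2⟩ := hν
  obtain ⟨hν3, hν4⟩ := hν'
  obtain ⟨b11, b12⟩ := b1
  obtain ⟨b21, b22⟩ := b2
  obtain ⟨b31, b32⟩ := b3
  obtain ⟨b41, b42⟩ := b4
  obtain ⟨b51, b52⟩ := b5
  constructor <;> linarith

end Pool.Agent.H34.T2e
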